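import Pool.Agent.Q50.GN.Main

/-!
# Automorphy of polarized Galois representations from a positive proportion of the places

Let `R` be a polarized geometric representation of dimension `n` of the Galois group of a CM field `F`,
with distinct Hodge-Tate weights, which is irreducible on every open subgroup. Then `R` is automorphic if
and only if there are a chain `F = F₀ ⊆ F₁ ⊆ ... ⊆ F_k = L` of CM fields, each cyclic of prime degree
over the preceding one, a regular algebraic essentially conjugate self-dual cuspidal automorphic
representation `f` of `GL_n` over `L` and some `m ≥ 1` such that the `m`-th powers of the traces of
`Frob_w` on `R` and on the representation of `f` agree for a set of places `w` of `L` of positive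
upper density.

So the automorphy of all these `R` over all CM fields is equivalent to this condition for the semistable
ones over the CM fields which contain a given CM field `M₀`, Galois over `ℚ` with solvable group.

Proved in Lean: two representations of dimension `n` whose traces agree up to a factor on a coset of an
open subgroup are isomorphic there, and then over `L` up to a character of finite order; the induction
along the tower.
-/

set_option autoImplicit false
set_option linter.ambiguousOpen false

universe u

namespace Pool.Agent.Results.MP_adf543_nt.PositiveProportionOverTower

open Pool.Agent.Q50.ES Pool.Agent.Q50.ES.GN NumberField

/-- **A positive proportion of the places over a tower.** (1) A good representation `R` over the CM field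
`F` (polarized, geometric with distinct Hodge-Tate weights, irreducible on every open subgroup) is
automorphic if and only if over the end `L` of a tower of CM fields there is an automorphic
representation such that, for some `m ≥ 1`, the `m`-th powers of the Frobenius traces agree for a set of
places of `L` of positive upper density. (2) All good representations over all CM fields are automorphic
if and only if the condition of (1) holds for the semistable ones over the CM fields which contain
`M₀`. -/
theorem result {K : Type u} [Field K] [TopologicalSpace K] [IsTopologicalRing K] {n : ℕ}
    (hn : 0 < n) (T : GN.Data K n) (hT : T.Facts) (M₀ : Fld) (hM : GE.CMField M₀)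
    (hG : SolvableGalois M₀) :
    (∀ F, ∀ R : RepN K n F, T.Good R → (T.Automorphic R ↔ T.Approximated R)) ∧
    ((∀ F, GE.CMField F → ∀ R : RepN K n F, T.Good R → T.Automorphic R) ↔
      ∀ F, GE.CMField F → M₀ ≤ F → ∀ R : RepN K n F, T.Good R → T.Semistable R →
        T.Approximated R) :=
  ⟨fun _ R hR => GN.Data.automorphic_iff hn hT R hR, GN.Data.all_iff hn hT hM hG⟩

end Pool.Agent.Results.MP_adf543_nt.PositiveProportionOverTower
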